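import Pool.Agent.Run7.h871.PO.DIFF

set_option autoImplicit false

/-! Piece PRIMES of project PO: from the von Mangoldt function to primes. -/

namespace Pool.Agent.Run7.h871.PO

open Finset
open Pool.Agent.H373R2.T7
open Pool.Agent.H807R2.Dav
open Pool.Agent.Run7.h385.PO

open Classical in
/-- the proper prime powers up to `K` -/
noncomputable def PPow (K : ℕ) : Finset ℕ := (Icc 1 K).filter (fun v => IsPrimePow v ∧ ¬ v.Prime)

theorem card_ppow (K : ℕ) : (PPow K).card ≤ (Nat.sqrt K + 1) * (Nat.log 2 K + 1) := by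
  classical
  have hsub : PPow K ⊆ (range (Nat.sqrt K + 1) ×ˢ range (Nat.log 2 K + 1)).image
      (fun q : ℕ × ℕ => q.1 ^ q.2) := by
    intro v hv
    unfold PPow at hv
    rw [mem_filter, mem_Icc] at hv
    obtain ⟨⟨h1, h2⟩, h3, h4⟩ := hv
    obtain ⟨p, e, hp, he, hpe⟩ := (isPrimePow_nat_iff v).1 h3
    have he2 : 2 ≤ e := by
      rcases Nat.lt_or_ge e 2 with h | h
      · have : e = 1 := by omega
        subst this
        rw [pow_one] at hpe
        exact absurd (hpe ▸ hp) h4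
      · exact h
    rw [mem_image]
    refine ⟨(p, e), ?_, hpe⟩
    rw [mem_product, mem_range, mem_range]
    constructor
    · have h5 : p ^ 2 ≤ K := by
        calc p ^ 2 ≤ p ^ e := Nat.pow_le_pow_right hp.pos he2
          _ ≤ K := by rw [hpe]; exact h2
      have := Nat.le_sqrt'.2 h5
      simp only
      omega
    · have h5 : 2 ^ e ≤ K := by
        calc 2 ^ e ≤ p ^ e := Nat.pow_le_pow_left hp.two_le e
          _ ≤ K := by rw [hpe]; exact h2
      have := Nat.le_log_of_pow_le (by norm_num : 1 < 2) h5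
      simp only
      omega
  refine (card_le_card hsub).trans (card_image_le.trans ?_)
  rw [card_product, card_range, card_range]

open Classical in
/-- the bad values -/
noncomputable def Bad (K b : ℕ) : Finset ℤ :=
  (Icc (-(K : ℤ)) K).filter (fun v => v.natAbs ≤ b ∨ (IsPrimePow v.natAbs ∧ ¬ v.natAbs.Prime))

theorem card_bad (K b : ℕ) :
    (Bad K b).card ≤ (2 * b + 1) + 2 * ((Nat.sqrt K + 1) * (Nat.log 2 K + 1)) := by
  classical
  have hsub : Bad K b ⊆ Icc (-(b : ℤ)) b ∪ ((PPow K).image (fun n : ℕ => (n : ℤ)) ∪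
      (PPow K).image (fun n : ℕ => -(n : ℤ))) := by
    intro v hv
    unfold Bad at hv
    rw [mem_filter, mem_Icc] at hv
    obtain ⟨⟨h1, h2⟩, h3⟩ := hv
    rw [mem_union, mem_union, mem_Icc, mem_image, mem_image]
    rcases h3 with h3 | h3
    · exact Or.inl (by omega)
    · right
      have h4 : v.natAbs ∈ PPow K := by
        unfold PPow
        rw [mem_filter, mem_Icc]
        exact ⟨⟨h3.1.one_lt.le, by omega⟩, h3⟩
      rcases le_total 0 v with h | h
      · exact Or.inl ⟨v.natAbs, h4, by omega⟩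
      · exact Or.inr ⟨v.natAbs, h4, by omega⟩
  have hc := card_ppow K
  have h1 : (Icc (-(b : ℤ)) b).card = 2 * b + 1 := by
    rw [Int.card_Icc]; omega
  refine (card_le_card hsub).trans ((card_union_le _ _).trans ?_)
  rw [h1]
  have h2 := card_union_le ((PPow K).image (fun n : ℕ => (n : ℤ))) ((PPow K).image (fun n : ℕ => -(n : ℤ)))
  have h3 : ((PPow K).image (fun n : ℕ => (n : ℤ))).card ≤ (PPow K).card := card_image_le
  have h4 : ((PPow K).image (fun n : ℕ => -(n : ℤ))).card ≤ (PPow K).card := card_image_le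
  omega

/-- the number of bad values, in terms of `X` -/
theorem bad_small (C1 D : ℕ) (X L : ℝ) (K b : ℕ) (hL1 : 1 ≤ L) (hX : 1 ≤ X) (hLX : L = Real.log X)
    (hK : (K : ℝ) ≤ 2 * X * L ^ C1) (hKsq : (K : ℝ) ≤ X ^ 2) (hK0 : 1 ≤ K)
    (hb : (b : ℝ) ≤ X / L ^ D) (hbig : 36 * L ^ (C1 + 1 + D) ≤ √X) :
    ((Bad K b).card : ℝ) ≤ 4 * X / L ^ D := by
  have hL0 : 0 < L := by linarith
  have hX0 : 0 < X := by linarith
  have h1 : ((Bad K b).card : ℝ) ≤ (2 * b + 1) + 2 * (((Nat.sqrt K : ℝ) + 1) * ((Nat.log 2 K : ℝ) + 1)) := by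
    exact_mod_cast card_bad K b
  -- the square root
  have h2 : (Nat.sqrt K : ℝ) ≤ 2 * √X * L ^ C1 := by
    have a1 : (Nat.sqrt K : ℝ) ≤ √(K : ℝ) := Real.nat_sqrt_le_real_sqrt
    have a2 : √(K : ℝ) ≤ √(X * (2 * L ^ C1) ^ 2) := by
      apply Real.sqrt_le_sqrt
      refine hK.trans ?_
      have a3 : 1 ≤ L ^ C1 := one_le_pow₀ hL1
      have a4 : 2 * X * L ^ C1 = X * (2 * L ^ C1) := by ring
      rw [a4]
      apply mul_le_mul_of_nonneg_left _ hX0.le
      nlinarith
    have a5 : √(X * (2 * L ^ C1) ^ 2) = 2 * √X * L ^ C1 := by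
      rw [Real.sqrt_mul hX0.le, Real.sqrt_sq (by positivity)]
      ring
    linarith
  -- the logarithm
  have h3 : (Nat.log 2 K : ℝ) ≤ 4 * L := by
    have a1 : (2 : ℝ) ^ (Nat.log 2 K) ≤ K := by exact_mod_cast Nat.pow_log_le_self 2 (by omega)
    have a2 : (Nat.log 2 K : ℝ) * Real.log 2 ≤ Real.log K := by
      rw [← Real.log_pow]
      exact Real.log_le_log (by positivity) a1
    have a3 : Real.log K ≤ 2 * L := by
      have a4 := Real.log_le_log (by exact_mod_cast hK0 : (0 : ℝ) < K) hKsq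
      rw [Real.log_pow, ← hLX] at a4
      push_cast at a4
      exact a4
    have a5 : (1 : ℝ) / 2 ≤ Real.log 2 := by
      have := Real.log_two_gt_d9
      linarith
    have a6 : (0 : ℝ) ≤ (Nat.log 2 K : ℝ) := Nat.cast_nonneg _
    nlinarith
  have h4 : 1 ≤ L ^ C1 := one_le_pow₀ hL1
  have h5 : 1 ≤ √X := Real.one_le_sqrt.2 hX
  have h6 : 1 ≤ √X * L ^ C1 := by nlinarith
  have h7 : ((Nat.sqrt K : ℝ) + 1) * ((Nat.log 2 K : ℝ) + 1) ≤ (3 * (√X * L ^ C1)) * (5 * L) := by
    apply mul_le_mul _ (by linarith) (by positivity) (by positivity)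
    nlinarith
  have h8 : (3 * (√X * L ^ C1)) * (5 * L) = 15 * (√X * L ^ (C1 + 1)) := by
    rw [pow_succ]; ring
  have h9 : 36 * (√X * L ^ (C1 + 1)) ≤ X / L ^ D := by
    rw [le_div_iff₀ (by positivity)]
    calc 36 * (√X * L ^ (C1 + 1)) * L ^ D = √X * (36 * L ^ (C1 + 1 + D)) := by
          rw [pow_add L (C1 + 1) D]; ring
      _ ≤ √X * √X := mul_le_mul_of_nonneg_left hbig (by positivity)
      _ = X := Real.mul_self_sqrt hX0.le
  have h10 : 1 ≤ √X * L ^ (C1 + 1) := by
    have : 1 ≤ L ^ (C1 + 1) := one_le_pow₀ hL1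
    nlinarith
  have h11 : 4 * X / L ^ D = 4 * (X / L ^ D) := by ring
  rw [h11]
  nlinarith

theorem val_le {d : ℕ} (C : ℕ) (L X : ℝ) (hL1 : 1 ≤ L) (hLd1 : (2 : ℝ) * d + 1 ≤ L) (hX0 : 0 < X)
    (W : ℕ) (hW : (W : ℝ) ≤ L) (n : ℕ) (hn : (n : ℝ) ≤ L ^ C) (u : ℤ) (hu : |(u : ℝ)| ≤ X * L ^ C)
    (t : Fin d → ℤ) (h1 : ∀ j, |(t j : ℝ)| ≤ 2 * X) :
    |((u + ev W t n : ℤ) : ℝ)| ≤ X * L ^ (C * d + C + 3) := by
  have h2 := ev_abs W t n (2 * X) (L ^ C) (by positivity) (one_le_pow₀ hL1) hn h1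
  have h3 : (W : ℝ) * (d * (2 * X * (L ^ C) ^ d)) ≤ L * (d * (2 * X * (L ^ C) ^ d)) :=
    mul_le_mul_of_nonneg_right hW (by positivity)
  have h5 : |((u + ev W t n : ℤ) : ℝ)| ≤ X * L ^ C + L * (d * (2 * X * (L ^ C) ^ d)) := by
    push_cast
    refine (abs_add_le _ _).trans ?_
    linarith
  refine h5.trans ?_
  rw [← pow_mul]
  have g1 : L ^ C ≤ L ^ (C * d + C + 2) := pow_le_pow_right₀ hL1 (by omega)
  have g2 : L ^ (C * d + 1) ≤ L ^ (C * d + C + 2) := pow_le_pow_right₀ hL1 (by omega)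
  have g3 : L ^ (C * d + C + 3) = L * L ^ (C * d + C + 2) := by
    rw [show C * d + C + 3 = 1 + (C * d + C + 2) by ring, pow_add, pow_one]
  have g4 : L * (d * (2 * X * L ^ (C * d))) = X * (2 * d * L ^ (C * d + 1)) := by
    rw [pow_succ]; ring
  rw [g3, g4, ← mul_add]
  apply mul_le_mul_of_nonneg_left _ hX0.le
  have g5 : 2 * (d : ℝ) * L ^ (C * d + 1) ≤ 2 * d * L ^ (C * d + C + 2) := by gcongr
  have g6 : (2 * (d : ℝ) + 1) * L ^ (C * d + C + 2) ≤ L * L ^ (C * d + C + 2) := by gcongr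
  linarith

/-- powers near one -/
theorem near_one (k : ℕ) (ε : ℝ) (hε : 0 < ε) : ∃ η : ℝ, 0 < η ∧ η ≤ 1 / 2 ∧
    (1 + η) ^ k ≤ 1 + ε ∧ 1 - ε ≤ (1 - η) ^ k := by
  have hc : ContinuousAt (fun x : ℝ => (1 + x) ^ k) 0 := by fun_prop
  obtain ⟨δ, hδ, h⟩ := Metric.continuousAt_iff.1 hc ε hε
  simp only [add_zero, one_pow, Real.dist_eq, sub_zero] at h
  refine ⟨min (δ / 2) (1 / 2), by positivity, min_le_right _ _, ?_, ?_⟩
  · have h1 : |min (δ / 2) (1 / 2)| < δ := by
      rw [abs_of_pos (by positivity)]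
      exact lt_of_le_of_lt (min_le_left _ _) (by linarith)
    have := (abs_lt.1 (h h1)).2
    linarith
  · have h1 : |-min (δ / 2) (1 / 2)| < δ := by
      rw [abs_neg, abs_of_pos (by positivity)]
      exact lt_of_le_of_lt (min_le_left _ _) (by linarith)
    have h2 := (abs_lt.1 (h h1)).1
    have h3 : (1 + -min (δ / 2) (1 / 2)) = 1 - min (δ / 2) (1 / 2) := by ring
    rw [h3] at h2
    linarith

theorem ev_loglog (c η : ℝ) (hη : 0 < η) : ∃ x0 : ℕ, ∀ X : ℕ, x0 ≤ X →
    c * Real.log (Real.log X) ≤ η * Real.log X := by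
  have hlim : Filter.Tendsto (fun N : ℕ => Real.log (N : ℝ)) Filter.atTop Filter.atTop :=
    Real.tendsto_log_atTop.comp (tendsto_natCast_atTop_atTop (R := ℝ))
  have h3 := (Real.isLittleO_log_id_atTop).bound (show (0 : ℝ) < η / (|c| + 1) by positivity)
  have h4 := hlim.eventually h3
  obtain ⟨x0, h0⟩ := Filter.eventually_atTop.1 (h4.and (hlim.eventually_ge_atTop 1))
  refine ⟨x0, fun X hX => ?_⟩
  obtain ⟨h5, h6⟩ := h0 X hX
  simp only [id] at h5
  have h7 : 0 ≤ Real.log (Real.log X) := Real.log_nonneg h6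
  rw [Real.norm_of_nonneg h7, Real.norm_of_nonneg (by linarith)] at h5
  calc c * Real.log (Real.log X) ≤ (|c| + 1) * Real.log (Real.log X) := by
        apply mul_le_mul_of_nonneg_right _ h7
        have := le_abs_self c
        linarith
    _ ≤ (|c| + 1) * (η / (|c| + 1) * Real.log X) := mul_le_mul_of_nonneg_left h5 (by positivity)
    _ = η * Real.log X := by field_simp

/-- the product of the von Mangoldt functions when no value is bad -/
theorem prod_good {k b : ℕ} (v : Fin k → ℕ) (hg : ∀ i, ¬ (v i ≤ b ∨ (IsPrimePow (v i) ∧ ¬ (v i).Prime)))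
    (L η ε1 : ℝ) (hL : 0 ≤ L) (hη : η ≤ 1) (hu : (1 + η) ^ k ≤ 1 + ε1) (hl : 1 - ε1 ≤ (1 - η) ^ k)
    (h1 : ∀ i, (1 - η) * L ≤ Real.log (v i)) (h2 : ∀ i, Real.log (v i) ≤ (1 + η) * L) :
    |∏ i, ArithmeticFunction.vonMangoldt (v i) - L ^ k * (if ∀ i, (v i).Prime then 1 else 0)| ≤
      ε1 * (L ^ k * (if ∀ i, (v i).Prime then 1 else 0)) := by
  have hLk : 0 ≤ L ^ k := by positivity
  split_ifs with hp
  · rw [mul_one]
    have e1 : ∏ i, ArithmeticFunction.vonMangoldt (v i) ≤ ((1 + η) * L) ^ k := by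
      have : ((1 + η) * L) ^ k = ∏ _i : Fin k, ((1 + η) * L) := by
        rw [prod_const, card_univ, Fintype.card_fin]
      rw [this]
      refine prod_le_prod (fun i _ => ArithmeticFunction.vonMangoldt_nonneg) fun i _ => ?_
      rw [ArithmeticFunction.vonMangoldt_apply_prime (hp i)]
      exact h2 i
    have e2 : ((1 - η) * L) ^ k ≤ ∏ i, ArithmeticFunction.vonMangoldt (v i) := by
      have : ((1 - η) * L) ^ k = ∏ _i : Fin k, ((1 - η) * L) := by
        rw [prod_const, card_univ, Fintype.card_fin]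
      rw [this]
      refine prod_le_prod (fun i _ => mul_nonneg (by linarith) hL) fun i _ => ?_
      rw [ArithmeticFunction.vonMangoldt_apply_prime (hp i)]
      exact h1 i
    rw [mul_pow] at e1 e2
    rw [abs_le]
    constructor <;> nlinarith
  · rw [mul_zero, mul_zero, sub_zero]
    push Not at hp
    obtain ⟨i, hi⟩ := hp
    have h0 : ArithmeticFunction.vonMangoldt (v i) = 0 := by
      rw [ArithmeticFunction.vonMangoldt_apply, if_neg]
      intro h3
      exact hg i (Or.inr ⟨h3, hi⟩)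
    rw [prod_eq_zero (mem_univ i) h0, abs_zero]

/-- the conclusion from the estimates -/
theorem finish (x A PV P e : ℝ) (he0 : 0 < e) (he : e ≤ 1 / 8) (hPV : 0 ≤ PV) (hP : P ≤ PV)
    (hx : 0 ≤ x) (h1 : |A - x| ≤ e * x + e * P) (h2 : |A - PV| ≤ 2 * e * PV) :
    |x - PV| ≤ 5 * e * PV := by
  have a1 := abs_le.1 h1
  have a2 := abs_le.1 h2
  have a3 : e * P ≤ e * PV := mul_le_mul_of_nonneg_left hP he0.le
  have a4 : x ≤ 2 * PV := by nlinarith
  have a5 : e * x ≤ e * (2 * PV) := mul_le_mul_of_nonneg_left a4 he0.le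
  rw [abs_le]
  constructor <;> nlinarith

theorem t_PRIMES (hWS : S_WSMALL) (hD : S_DIFF) (hM : S_MODEL) (hR : S_RARE) : S_PRIMES := by
  classical
  intro d k C hd hk ε hε
  have hε1 : 0 < min ε 1 / 8 := by positivity
  set ε1 : ℝ := min ε 1 / 8 with hε1d
  have hε18 : ε1 ≤ 1 / 8 := by
    rw [hε1d]
    have := min_le_right ε 1
    linarith
  have hε5 : 5 * ε1 ≤ ε := by
    rw [hε1d]
    have := min_le_left ε 1
    linarith
  obtain ⟨η, hη0, hη12, hηu, hηl⟩ := near_one k ε1 hε1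
  obtain ⟨B, hB⟩ := hD d k C 1 (by omega) hk
  obtain ⟨X1, hX1⟩ := hB (B + 2)
  obtain ⟨X2, hX2⟩ := hM d k C (B + 2) hd ε1 hε1
  obtain ⟨X3, hX3⟩ := hWS.2
  set C1 : ℕ := C * d + C + 3 with hC1
  set D : ℕ := k + C + 1 with hDd
  obtain ⟨x1, hx1⟩ := ev_L' (max (max ((2 : ℝ) * d + 1) 2) (max (8 * k * 2 ^ k / ε1) (1 / ε1)))
  obtain ⟨x2, hx2⟩ := ev_log' (C1 + 1 + D) 36
  obtain ⟨x3, hx3⟩ := ev_loglog ((D : ℝ) + C1) η hη0
  refine ⟨max (max (max X1 X2) (max X3 x1)) (max (max x2 x3) 3), fun X hX n hn hnC u hu hcop Y hY => ?_⟩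
  simp only [max_le_iff] at hX
  obtain ⟨⟨⟨hXX1, hXX2⟩, hXX3, hXx1⟩, ⟨hXx2, hXx3⟩, hX3n⟩ := hX
  have hX3r : (3 : ℝ) ≤ X := by exact_mod_cast hX3n
  have hX0 : (0 : ℝ) < X := by linarith
  have hLbig := hx1 X hXx1
  have hsq := hx2 X hXx2
  have hll := hx3 X hXx3
  obtain ⟨hW2, hW1, -⟩ := hX3 X hXX3
  set L : ℝ := Real.log X with hLd
  have hLd1 : (2 : ℝ) * d + 1 ≤ L := le_trans (le_trans (le_max_left _ _) (le_max_left _ _)) hLbig
  have hL2 : 2 ≤ L := le_trans (le_trans (le_max_right _ _) (le_max_left _ _)) hLbig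
  have hLk : 8 * k * 2 ^ k / ε1 ≤ L := le_trans (le_trans (le_max_left _ _) (le_max_right _ _)) hLbig
  have hLe : 1 / ε1 ≤ L := le_trans (le_trans (le_max_right _ _) (le_max_right _ _)) hLbig
  have hL1 : 1 ≤ L := by linarith
  have hL0 : 0 < L := by linarith
  have hW1r : (1 : ℝ) ≤ WW X := by exact_mod_cast hW1
  have hWL : (WW X : ℝ) ≤ L := by nlinarith
  -- z
  set z : ℕ := ⌈L ^ (B + 1)⌉₊ with hzd
  have hzge : L ^ (B + 1) ≤ z := Nat.le_ceil _
  have hLB1 : 1 ≤ L ^ (B + 1) := one_le_pow₀ hL1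
  have hz1 : L ^ B ≤ z := le_trans (pow_le_pow_right₀ hL1 (Nat.le_succ B)) hzge
  have hz2 : (z : ℝ) ≤ L ^ (B + 2) := by
    have h1 := (Nat.ceil_lt_add_one (show 0 ≤ L ^ (B + 1) by positivity)).le
    rw [← hzd] at h1
    have h2 : L ^ (B + 2) = L * L ^ (B + 1) := by rw [pow_succ]; ring
    rw [h2]
    nlinarith
  have hz11 : 1 ≤ z := by
    have h1 : (1 : ℝ) ≤ z := hLB1.trans hzge
    exact_mod_cast h1
  have hwz : ww X ≤ z := by
    have h1 : (ww X : ℝ) ≤ z := by
      unfold ww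
      have h2 : 0 ≤ Real.log (Real.log X) / 4 := by
        have := Real.log_nonneg hL1
        positivity
      refine (Nat.floor_le h2).trans ?_
      have h3 : Real.log (Real.log X) ≤ L := (Real.log_le_self (by positivity))
      have h4 : L ≤ L ^ (B + 1) := by
        calc L = L ^ 1 := (pow_one L).symm
          _ ≤ L ^ (B + 1) := pow_le_pow_right₀ hL1 (by omega)
      have h5 : 0 ≤ Real.log (Real.log X) := Real.log_nonneg hL1
      linarith
    exact_mod_cast h1
  have hDIFF := hX1 X hXX1 z hz1 hz2 n hn hnC (WW X) hW1 hWL u hu Y hY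
  have hMODEL := hX2 X hXX2 z hz11 hwz hz2 n hn hnC u hcop Y (fun j => (hY j).1)
  set P : ℝ := ∏ j, (Y j : ℝ) with hPd
  have hP0 : 0 ≤ P := prod_nonneg fun j _ => Nat.cast_nonneg _
  set V : ℝ := (Vz (ww X))⁻¹ with hVd
  have hV1 : 1 ≤ V := by
    rw [hVd]
    exact (one_le_inv₀ (Vz_pos _)).2 (Vz_le_one _)
  have hVk : 1 ≤ V ^ k := one_le_pow₀ hV1
  have hPV : P ≤ P * V ^ k := le_mul_of_one_le_right hP0 hVk
  -- K, b and the bad values
  set K : ℕ := ⌈(X : ℝ) * L ^ C1⌉₊ with hKd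
  set b : ℕ := ⌊(X : ℝ) / L ^ D⌋₊ with hbd
  have hXL1 : (X : ℝ) ≤ X * L ^ C1 := le_mul_of_one_le_right hX0.le (one_le_pow₀ hL1)
  have hKle : (X : ℝ) * L ^ C1 ≤ K := Nat.le_ceil _
  have hXK : (X : ℝ) ≤ K := hXL1.trans hKle
  have hK1 : 1 ≤ K := by
    have h1 : (1 : ℝ) ≤ K := by linarith
    exact_mod_cast h1
  have hK2 : (K : ℝ) ≤ 2 * X * L ^ C1 := by
    have h1 := (Nat.ceil_lt_add_one (show (0 : ℝ) ≤ (X : ℝ) * L ^ C1 by positivity)).le
    rw [← hKd] at h1
    linarith
  have hsX : √(X : ℝ) ≤ X := by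
    rw [Real.sqrt_le_left (by positivity)]; nlinarith
  have hKsq : (K : ℝ) ≤ (X : ℝ) ^ 2 := by
    have h1 : 36 * L ^ C1 ≤ X := by
      refine le_trans ?_ (hsq.trans hsX)
      exact mul_le_mul_of_nonneg_left (pow_le_pow_right₀ hL1 (by omega)) (by norm_num)
    have h2 : 2 * (X : ℝ) * L ^ C1 = X * (2 * L ^ C1) := by ring
    rw [h2] at hK2
    refine hK2.trans ?_
    rw [sq]
    apply mul_le_mul_of_nonneg_left _ hX0.le
    have h3 : 0 ≤ L ^ C1 := by positivity
    linarith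
  have hK0 : (0 : ℝ) < K := by linarith
  have hlK : Real.log K ≤ 2 * L := by
    have h1 := Real.log_le_log hK0 hKsq
    rw [Real.log_pow] at h1
    push_cast at h1
    exact h1
  have hbcard := bad_small C1 D X L K b hL1 (by linarith) rfl hK2 hKsq hK1
    (Nat.floor_le (by positivity)) hsq
  -- values
  have hval : ∀ t ∈ box Y, ∀ i, |((u i + ev (WW X) t (n i) : ℤ) : ℝ)| ≤ X * L ^ C1 := by
    intro t ht i
    refine val_le C L X hL1 hLd1 hX0 (WW X) hWL (n i) (hnC i) (u i) (hu i) t fun j => ?_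
    unfold Pool.Agent.Run7.h385.PO.box at ht
    rw [Fintype.mem_piFinset] at ht
    have h1 := mem_Ico.1 (ht j)
    have h2 : (0 : ℝ) ≤ t j := by exact_mod_cast h1.1
    have h3 : (t j : ℝ) ≤ Y j := by exact_mod_cast h1.2.le
    have h4 := (hY j).2
    rw [abs_of_nonneg h2]
    linarith
  have hvalN : ∀ t ∈ box Y, ∀ i, ((u i + ev (WW X) t (n i)).natAbs : ℝ) ≤ X * L ^ C1 := by
    intro t ht i
    have := hval t ht i
    rwa [← Int.cast_abs, ← Nat.cast_natAbs] at this
  have hvalK : ∀ t ∈ box Y, ∀ i, (u i + ev (WW X) t (n i)).natAbs ≤ K := by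
    intro t ht i
    have := (hvalN t ht i).trans hKle
    exact_mod_cast this
  set bad : Finset (Fin d → ℤ) := (box Y).filter (fun t => ∃ i, u i + ev (WW X) t (n i) ∈ Bad K b)
    with hbadd
  have hbad1 : ∀ i, (((box Y).filter (fun t => u i + ev (WW X) t (n i) ∈ Bad K b)).card : ℝ) ≤
      4 * P / L ^ (k + 1) := by
    intro i
    have h1 := hR d (by omega) Y (WW X) hW1 (n i) (u i) (Bad K b)
    have h2 := (hY ⟨0, by omega⟩).1
    have h3 : 0 < (X : ℝ) / L ^ C := by positivity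
    have h4 : (((box Y).filter (fun t => u i + ev (WW X) t (n i) ∈ Bad K b)).card : ℝ) * (X / L ^ C) ≤
        4 * X / L ^ D * P := by
      refine (mul_le_mul_of_nonneg_left h2 (Nat.cast_nonneg _)).trans (h1.trans ?_)
      exact mul_le_mul_of_nonneg_right hbcard hP0
    rw [← le_div_iff₀ h3] at h4
    refine h4.trans (le_of_eq ?_)
    rw [hDd, show k + C + 1 = (k + 1) + C by ring, pow_add]
    field_simp
  have hbadcard : (bad.card : ℝ) ≤ k * (4 * P / L ^ (k + 1)) := by
    have h1 : bad ⊆ (univ : Finset (Fin k)).biUnion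
        (fun i => (box Y).filter (fun t => u i + ev (WW X) t (n i) ∈ Bad K b)) := by
      intro t ht
      rw [hbadd, mem_filter] at ht
      obtain ⟨h1, i, h2⟩ := ht
      rw [mem_biUnion]
      exact ⟨i, mem_univ i, mem_filter.2 ⟨h1, h2⟩⟩
    have h2 : (bad.card : ℝ) ≤ ∑ i : Fin k,
        (((box Y).filter (fun t => u i + ev (WW X) t (n i) ∈ Bad K b)).card : ℝ) := by
      exact_mod_cast (card_le_card h1).trans card_biUnion_le
    refine h2.trans ((sum_le_sum fun i _ => hbad1 i).trans ?_)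
    rw [sum_const, card_univ, Fintype.card_fin, nsmul_eq_mul]
  -- pointwise comparison
  have hpt : ∀ t ∈ box Y, |∏ i, ArithmeticFunction.vonMangoldt (u i + ev (WW X) t (n i)).natAbs -
      L ^ k * (if ∀ i, (u i + ev (WW X) t (n i)).natAbs.Prime then 1 else 0)| ≤
      ε1 * (L ^ k * (if ∀ i, (u i + ev (WW X) t (n i)).natAbs.Prime then 1 else 0)) +
        (if t ∈ bad then 2 * (2 * L) ^ k else 0) := by
    intro t ht
    by_cases hb : t ∈ bad
    · rw [if_pos hb]
      have h1 : 0 ≤ ∏ i, ArithmeticFunction.vonMangoldt (u i + ev (WW X) t (n i)).natAbs :=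
        prod_nonneg fun i _ => ArithmeticFunction.vonMangoldt_nonneg
      have h2 : ∏ i, ArithmeticFunction.vonMangoldt (u i + ev (WW X) t (n i)).natAbs ≤ (2 * L) ^ k := by
        have : (2 * L) ^ k = ∏ _i : Fin k, (2 * L) := by
          rw [prod_const, card_univ, Fintype.card_fin]
        rw [this]
        refine prod_le_prod (fun i _ => ArithmeticFunction.vonMangoldt_nonneg) fun i _ => ?_
        rcases Nat.eq_zero_or_pos (u i + ev (WW X) t (n i)).natAbs with h0 | h0
        · rw [h0, ArithmeticFunction.map_zero]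
          positivity
        · refine ArithmeticFunction.vonMangoldt_le_log.trans ((Real.log_le_log
            (by exact_mod_cast h0) ?_).trans hlK)
          exact_mod_cast hvalK t ht i
      have h3 : L ^ k ≤ (2 * L) ^ k := pow_le_pow_left₀ hL0.le (by linarith) k
      have h4 : 0 ≤ L ^ k := by positivity
      have h5 : 0 ≤ ε1 * L ^ k := by positivity
      rw [abs_le]
      split_ifs <;> constructor <;> linarith
    · rw [if_neg hb, add_zero]
      have hg : ∀ i, ¬ ((u i + ev (WW X) t (n i)).natAbs ≤ b ∨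
          (IsPrimePow (u i + ev (WW X) t (n i)).natAbs ∧ ¬ (u i + ev (WW X) t (n i)).natAbs.Prime)) := by
        intro i hi
        apply hb
        rw [hbadd, mem_filter]
        refine ⟨ht, i, ?_⟩
        unfold Bad
        rw [mem_filter, mem_Icc]
        have := hvalK t ht i
        exact ⟨by omega, hi⟩
      apply prod_good _ hg L η ε1 hL0.le (by linarith) hηu hηl
      · intro i
        have h1 : b + 1 ≤ (u i + ev (WW X) t (n i)).natAbs := by
          have := hg i
          push Not at this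
          omega
        have h2 : (X : ℝ) / L ^ D ≤ (u i + ev (WW X) t (n i)).natAbs := by
          have h3 := (Nat.lt_floor_add_one ((X : ℝ) / L ^ D)).le
          rw [← hbd] at h3
          refine h3.trans ?_
          exact_mod_cast h1
        have h4 := Real.log_le_log (by positivity) h2
        rw [Real.log_div hX0.ne' (by positivity), Real.log_pow] at h4
        have h5 : 0 ≤ Real.log L := Real.log_nonneg hL1
        have h6 : (0 : ℝ) ≤ C1 := Nat.cast_nonneg _
        have h7 : 0 ≤ (C1 : ℝ) * Real.log L := mul_nonneg h6 h5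
        rw [← hLd] at h4
        have h8 : (1 - η) * L = L - η * L := by ring
        rw [add_mul] at hll
        rw [h8]
        linarith
      · intro i
        rcases Nat.eq_zero_or_pos (u i + ev (WW X) t (n i)).natAbs with h0 | h0
        · rw [h0, Nat.cast_zero, Real.log_zero]
          positivity
        · have h4 := Real.log_le_log (by exact_mod_cast h0) (hvalN t ht i)
          rw [Real.log_mul hX0.ne' (by positivity), Real.log_pow] at h4
          have h5 : 0 ≤ Real.log L := Real.log_nonneg hL1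
          have h6 : (0 : ℝ) ≤ D := Nat.cast_nonneg _
          have h7 : 0 ≤ (D : ℝ) * Real.log L := mul_nonneg h6 h5
          rw [← hLd] at h4
          have h8 : (1 + η) * L = L + η * L := by ring
          rw [add_mul] at hll
          rw [h8]
          linarith
  -- summation
  set N : ℝ := (((box Y).filter (fun t => ∀ i, (u i + ev (WW X) t (n i)).natAbs.Prime)).card : ℝ) with hNd
  have hNsum : ∑ t ∈ box Y, (if ∀ i, (u i + ev (WW X) t (n i)).natAbs.Prime then (1 : ℝ) else 0) = N := by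
    rw [hNd, card_filter]
    push_cast
    rfl
  have hN0 : 0 ≤ N := Nat.cast_nonneg _
  set A : ℝ := ∑ t ∈ box Y, ∏ i, ArithmeticFunction.vonMangoldt (u i + ev (WW X) t (n i)).natAbs with hA
  have hAx : |A - L ^ k * N| ≤ ε1 * (L ^ k * N) + ε1 * P := by
    have h1 : A - L ^ k * N = ∑ t ∈ box Y, (∏ i, ArithmeticFunction.vonMangoldt (u i + ev (WW X) t (n i)).natAbs -
      L ^ k * (if ∀ i, (u i + ev (WW X) t (n i)).natAbs.Prime then 1 else 0)) := by
      rw [sum_sub_distrib, ← mul_sum, hNsum]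
    rw [h1]
    refine (abs_sum_le_sum_abs _ _).trans ((sum_le_sum hpt).trans ?_)
    rw [sum_add_distrib, ← mul_sum, ← mul_sum, hNsum]
    have h2 : ∑ t ∈ box Y, (if t ∈ bad then 2 * (2 * L) ^ k else 0) = bad.card * (2 * (2 * L) ^ k) := by
      rw [← sum_filter, sum_const, nsmul_eq_mul]
      congr 2
      congr 1
      ext t
      rw [mem_filter]
      exact ⟨fun h => h.2, fun h => ⟨(mem_filter.1 h).1, h⟩⟩
    rw [h2]
    have h3 : (bad.card : ℝ) * (2 * (2 * L) ^ k) ≤ ε1 * P := by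
      refine (mul_le_mul_of_nonneg_right hbadcard (by positivity)).trans ?_
      have h4 : (k : ℝ) * (4 * P / L ^ (k + 1)) * (2 * (2 * L) ^ k) = (8 * k * 2 ^ k / L) * P := by
        rw [mul_pow, pow_succ]
        field_simp
        ring
      rw [h4]
      apply mul_le_mul_of_nonneg_right _ hP0
      rw [div_le_iff₀ hL0]
      rw [div_le_iff₀ hε1] at hLk
      linarith
    linarith
  have hAV : |A - P * V ^ k| ≤ 2 * ε1 * (P * V ^ k) := by
    rw [sum_sub_distrib, pow_one] at hDIFF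
    have h1 : P / L ≤ ε1 * P := by
      rw [div_le_iff₀ hL0]
      rw [div_le_iff₀ hε1] at hLe
      nlinarith
    have h2 : ε1 * P ≤ ε1 * (P * V ^ k) := mul_le_mul_of_nonneg_left hPV hε1.le
    have h3 := abs_le.1 hDIFF
    have h4 := abs_le.1 hMODEL
    rw [abs_le]
    constructor <;> linarith
  have hfin := finish (L ^ k * N) A (P * V ^ k) P ε1 hε1 hε18 (by positivity) hPV (by positivity) hAx hAV
  have hLk0 : 0 < L ^ k := by positivity
  have hrho : rho X ^ k = V ^ k / L ^ k := by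
    unfold rho
    rw [div_pow]
  rw [hrho]
  have e1 : N - P * (V ^ k / L ^ k) = (L ^ k * N - P * V ^ k) / L ^ k := by
    field_simp
  rw [e1, abs_div, abs_of_pos hLk0, div_le_iff₀ hLk0]
  have e2 : ε * (P * (V ^ k / L ^ k)) * L ^ k = ε * (P * V ^ k) := by
    field_simp
  rw [e2]
  refine hfin.trans ?_
  apply mul_le_mul_of_nonneg_right hε5 (by positivity)

end Pool.Agent.Run7.h871.PO
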