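import Pool.Agent.Run7.h385.PO.Stm

set_option autoImplicit false

/-! Piece DIFF of project PO: the von Mangoldt function against its sieve model along the values of
random polynomials. -/

namespace Pool.Agent.Run7.h871.PO

open Finset
open Pool.Agent.H373R2.T7
open Pool.Agent.H807R2.Dav
open Pool.Agent.Run7.h385.PO

/-- telescoping -/
theorem telesc : ∀ (k : ℕ) (a b : Fin k → ℝ),
    ∏ i, a i - ∏ i, b i =
      ∑ i0, ∏ i, (if i < i0 then b i else if i = i0 then a i - b i else a i) := by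
  intro k
  induction k with
  | zero => intro a b; simp
  | succ k ih =>
    intro a b
    rw [Fin.sum_univ_succ]
    have h0 : ∏ i : Fin (k + 1), (if i < 0 then b i else if i = 0 then a i - b i else a i) =
        (a 0 - b 0) * ∏ i : Fin k, a i.succ := by
      rw [Fin.prod_univ_succ]
      simp
    have h1 : ∀ j : Fin k, ∏ i : Fin (k + 1), (if i < j.succ then b i else
        if i = j.succ then a i - b i else a i) = b 0 * ∏ i : Fin k, (if i < j then b i.succ else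
        if i = j then a i.succ - b i.succ else a i.succ) := by
      intro j
      rw [Fin.prod_univ_succ]
      simp
    rw [h0, sum_congr rfl fun j _ => h1 j, ← mul_sum, ← ih (fun i => a i.succ) (fun i => b i.succ),
      Fin.prod_univ_succ, Fin.prod_univ_succ]
    ring

theorem Icc_split (K : ℕ) : Icc (-(K : ℤ)) K =
    ((Icc 1 K).image (fun n : ℕ => -(n : ℤ))) ∪ ({0} ∪ (Icc 1 K).image (fun n : ℕ => (n : ℤ))) := by
  ext m
  simp only [mem_Icc, mem_union, mem_image, mem_singleton]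
  constructor
  · rintro ⟨h1, h2⟩
    rcases lt_trichotomy m 0 with h | h | h
    · exact Or.inl ⟨m.natAbs, ⟨by omega, by omega⟩, by omega⟩
    · exact Or.inr (Or.inl h)
    · exact Or.inr (Or.inr ⟨m.natAbs, ⟨by omega, by omega⟩, by omega⟩)
  · rintro (⟨n, h1, h2⟩ | h | ⟨n, h1, h2⟩) <;> omega

/-- an even function: exponential sums over both signs -/
theorem sym_sum (K : ℕ) (ψ : ℕ → ℝ) (M R : ℝ)
    (h : ∀ α : ℝ, ‖∑ n ∈ Icc 1 K, ((ψ n : ℝ) : ℂ) * ee ((n : ℝ) * α)‖ ≤ M) (h0 : |ψ 0| ≤ R) (θ : ℝ) :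
    ‖∑ m ∈ Icc (-(K : ℤ)) K, ((ψ m.natAbs : ℝ) : ℂ) * ee ((m : ℝ) * θ)‖ ≤ 2 * M + R := by
  have hd1 : Disjoint ((Icc 1 K).image (fun n : ℕ => -(n : ℤ)))
      ({0} ∪ (Icc 1 K).image (fun n : ℕ => (n : ℤ))) := by
    rw [disjoint_left]
    intro m hm hm2
    simp only [mem_Icc, mem_union, mem_image, mem_singleton] at hm hm2
    obtain ⟨n, h1, h2⟩ := hm
    rcases hm2 with h3 | ⟨n', h3, h4⟩ <;> omega
  have hd2 : Disjoint ({0} : Finset ℤ) ((Icc 1 K).image (fun n : ℕ => (n : ℤ))) := by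
    rw [disjoint_left]
    intro m hm hm2
    simp only [mem_Icc, mem_image, mem_singleton] at hm hm2
    obtain ⟨n, h1, h2⟩ := hm2
    omega
  rw [Icc_split, sum_union hd1, sum_union hd2, sum_image (fun a _ b _ hab => by
    simp only [neg_inj, Nat.cast_inj] at hab; exact hab), sum_image (fun a _ b _ hab => by
    simpa using hab), sum_singleton]
  have h1 := h (-θ)
  have h2 := h θ
  have e1 : ∑ n ∈ Icc 1 K, ((ψ (-(n : ℤ)).natAbs : ℝ) : ℂ) * ee (((-(n : ℤ) : ℤ) : ℝ) * θ) =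
      ∑ n ∈ Icc 1 K, ((ψ n : ℝ) : ℂ) * ee ((n : ℝ) * (-θ)) := by
    refine sum_congr rfl fun n _ => ?_
    rw [Int.natAbs_neg, Int.natAbs_natCast]
    congr 2
    push_cast
    ring
  have e2 : ∑ n ∈ Icc 1 K, ((ψ (n : ℤ).natAbs : ℝ) : ℂ) * ee (((n : ℤ) : ℝ) * θ) =
      ∑ n ∈ Icc 1 K, ((ψ n : ℝ) : ℂ) * ee ((n : ℝ) * θ) := by
    refine sum_congr rfl fun n _ => ?_
    rw [Int.natAbs_natCast, Int.cast_natCast]
  rw [e1, e2]
  have h3 : ‖((ψ (0 : ℤ).natAbs : ℝ) : ℂ) * ee (((0 : ℤ) : ℝ) * θ)‖ ≤ R := by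
    rw [norm_mul, norm_ee, mul_one, Complex.norm_real, Real.norm_eq_abs]
    exact h0
  refine (norm_add_le _ _).trans ?_
  have h4 := norm_add_le (((ψ (0 : ℤ).natAbs : ℝ) : ℂ) * ee (((0 : ℤ) : ℝ) * θ))
    (∑ n ∈ Icc 1 K, ((ψ n : ℝ) : ℂ) * ee ((n : ℝ) * θ))
  linarith

theorem ev_abs {d : ℕ} (W : ℕ) (t : Fin d → ℤ) (n : ℕ) (T P : ℝ) (hT : 0 ≤ T) (hP : 1 ≤ P)
    (hn : (n : ℝ) ≤ P) (ht : ∀ j, |(t j : ℝ)| ≤ T) :
    |((ev W t n : ℤ) : ℝ)| ≤ W * (d * (T * P ^ d)) := by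
  unfold ev
  push_cast
  rw [abs_mul, Nat.abs_cast]
  refine mul_le_mul_of_nonneg_left ?_ (Nat.cast_nonneg _)
  refine (abs_sum_le_sum_abs _ _).trans ?_
  have h1 : ∀ j ∈ (univ : Finset (Fin d)), |(t j : ℝ) * (n : ℝ) ^ (j : ℕ)| ≤ T * P ^ d := by
    intro j _
    rw [abs_mul, abs_of_nonneg (by positivity : (0 : ℝ) ≤ (n : ℝ) ^ (j : ℕ))]
    refine mul_le_mul (ht j) ?_ (by positivity) hT
    exact (pow_le_pow_left₀ (Nat.cast_nonneg _) hn _).trans (pow_le_pow_right₀ hP j.2.le)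
  refine (sum_le_sum h1).trans ?_
  rw [sum_const, card_univ, Fintype.card_fin, nsmul_eq_mul]

theorem lamz_le_inv (z n : ℕ) : lamz z n ≤ (Vz z)⁻¹ := by
  unfold lamz
  split_ifs
  · exact le_rfl
  · exact inv_nonneg.2 (Vz_pos z).le

/-- the numerical estimate -/
theorem numeric (d k C U : ℕ) (L X K S N Ym : ℝ) (hL1 : 1 ≤ L) (hX : 0 < X)
    (hLc : (k : ℝ) * (d * 2 ^ (d + k + 2) + 12 * 4 ^ k) ≤ L)
    (hXL : L ^ (1 + 2 * k + (C * d + C + k + U + 2) + (U + 2)) ≤ X)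
    (hK : K ≤ 2 * X * L ^ (C * d + C + 3))
    (hS1 : X / (2 * L ^ (C * d + C + k + U + 2)) ≤ S) (hS2 : S ≤ X / L ^ (C * d + C + k + U + 2))
    (hN0 : 0 ≤ N) (hN : N + 1 ≤ 2 * L ^ C) (hYm : X / L ^ C ≤ Ym) (lK : ℝ) (hlK : L ≤ lK) :
    (k : ℝ) * ((2 * (K / lK ^ ((C * d + C + 3) + 2 * k + (C * d + C + k + U + 2) + (U + 2))) + 2 * L) *
      (2 * L) ^ (2 * k) / S + 2 * d * (2 * S * (N + 1) ^ d / Ym) * (2 * L) ^ k) ≤ 1 / L ^ U := by
  have hL0 : 0 < L := by linarith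
  set C1 := C * d + C + 3 with hC1
  set C3 := C * d + C + k + U + 2 with hC3
  have hS0 : 0 < S := lt_of_lt_of_le (by positivity) hS1
  have hYm0 : 0 < Ym := lt_of_lt_of_le (by positivity) hYm
  -- the second term
  have t2 : 2 * d * (2 * S * (N + 1) ^ d / Ym) * (2 * L) ^ k ≤ d * 2 ^ (d + k + 2) / L ^ (U + 2) := by
    have a1 : (N + 1) ^ d ≤ (2 * L ^ C) ^ d := pow_le_pow_left₀ (by linarith) hN d
    have a2 : S * (N + 1) ^ d / Ym ≤ (X / L ^ C3) * (2 * L ^ C) ^ d / (X / L ^ C) := by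
      apply div_le_div₀ (by positivity) _ (by positivity) hYm
      exact mul_le_mul hS2 a1 (by positivity) (by positivity)
    have a3 : (X / L ^ C3) * (2 * L ^ C) ^ d / (X / L ^ C) = 2 ^ d * (L ^ (C * d + C) / L ^ C3) := by
      rw [mul_pow, ← pow_mul]
      field_simp
      ring
    have a4 : L ^ C3 = L ^ (C * d + C) * L ^ k * L ^ (U + 2) := by
      rw [← pow_add, ← pow_add]
      congr 1
    have a5 : 2 * d * (2 * S * (N + 1) ^ d / Ym) * (2 * L) ^ k =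
        (4 * d * (2 * L) ^ k) * (S * (N + 1) ^ d / Ym) := by ring
    rw [a5]
    refine (mul_le_mul_of_nonneg_left (a2.trans a3.le) (by positivity)).trans (le_of_eq ?_)
    rw [a4, mul_pow]
    field_simp
    ring
  -- the first term
  have t1 : (2 * (K / lK ^ (C1 + 2 * k + C3 + (U + 2))) + 2 * L) * (2 * L) ^ (2 * k) / S ≤
      12 * 4 ^ k / L ^ (U + 2) := by
    have b1 : K / lK ^ (C1 + 2 * k + C3 + (U + 2)) ≤
        2 * X * L ^ C1 / L ^ (C1 + 2 * k + C3 + (U + 2)) := by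
      apply div_le_div₀ (by positivity) hK (by positivity)
      exact pow_le_pow_left₀ hL0.le hlK _
    have b2 : (2 * (K / lK ^ (C1 + 2 * k + C3 + (U + 2))) + 2 * L) * (2 * L) ^ (2 * k) / S ≤
        (2 * (2 * X * L ^ C1 / L ^ (C1 + 2 * k + C3 + (U + 2))) + 2 * L) * (2 * L) ^ (2 * k) /
          (X / (2 * L ^ C3)) := by
      have hlK0 : 0 < lK := by linarith
      apply div_le_div₀ (by positivity) _ (by positivity) hS1
      apply mul_le_mul_of_nonneg_right _ (by positivity)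
      linarith
    refine b2.trans ?_
    have b3 : (2 * (2 * X * L ^ C1 / L ^ (C1 + 2 * k + C3 + (U + 2))) + 2 * L) * (2 * L) ^ (2 * k) /
          (X / (2 * L ^ C3)) = 8 * 4 ^ k / L ^ (U + 2) + 4 * 4 ^ k * (L ^ (1 + 2 * k + C3) / X) := by
      have e4 : (2 * L) ^ (2 * k) = 4 ^ k * L ^ (2 * k) := by
        rw [mul_pow, pow_mul 2 2 k]
        norm_num
      rw [e4, pow_add L (C1 + 2 * k + C3), pow_add L (C1 + 2 * k), pow_add L C1,
        pow_add L (1 + 2 * k), pow_add L 1]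
      field_simp
      ring
    rw [b3]
    have b4 : L ^ (1 + 2 * k + C3) / X ≤ 1 / L ^ (U + 2) := by
      rw [div_le_div_iff₀ hX (by positivity), one_mul, ← pow_add]
      exact hXL
    have b5 : 4 * (4 : ℝ) ^ k * (L ^ (1 + 2 * k + C3) / X) ≤ 4 * 4 ^ k * (1 / L ^ (U + 2)) :=
      mul_le_mul_of_nonneg_left b4 (by positivity)
    have b6 : (12 : ℝ) * 4 ^ k / L ^ (U + 2) = 8 * 4 ^ k / L ^ (U + 2) + 4 * 4 ^ k * (1 / L ^ (U + 2)) := by
      ring
    rw [b6]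
    linarith
  have t3 : (k : ℝ) * ((2 * (K / lK ^ (C1 + 2 * k + C3 + (U + 2))) + 2 * L) *
      (2 * L) ^ (2 * k) / S + 2 * d * (2 * S * (N + 1) ^ d / Ym) * (2 * L) ^ k) ≤
      (k : ℝ) * (12 * 4 ^ k / L ^ (U + 2) + d * 2 ^ (d + k + 2) / L ^ (U + 2)) :=
    mul_le_mul_of_nonneg_left (add_le_add t1 t2) (Nat.cast_nonneg _)
  refine t3.trans ?_
  have t4 : (k : ℝ) * (12 * 4 ^ k / L ^ (U + 2) + d * 2 ^ (d + k + 2) / L ^ (U + 2)) =
      ((k : ℝ) * (d * 2 ^ (d + k + 2) + 12 * 4 ^ k)) / L ^ (U + 2) := by ring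
  have hLU : 0 < L ^ U := by positivity
  have e5 : L ^ (U + 2) = L ^ U * (L * L) := by rw [pow_add]; ring
  rw [t4, div_le_div_iff₀ (by positivity) (by positivity), one_mul, e5]
  have h1 := mul_le_mul_of_nonneg_right hLc hLU.le
  have h2 : L * L ^ U ≤ L ^ U * (L * L) := by
    have : L ≤ L * L := by nlinarith
    nlinarith
  linarith

theorem t_DIFF (hTERM : S_TERM) : S_DIFF := by
  intro d k C U hd hk
  set C1 : ℕ := C * d + C + 3 with hC1
  set C3 : ℕ := C * d + C + k + U + 2 with hC3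
  obtain ⟨B0, hB0⟩ := sup_diff (C1 + 2 * k + C3 + (U + 2))
  refine ⟨B0 + 1, fun E => ?_⟩
  obtain ⟨N0, hN0⟩ := hB0 E
  obtain ⟨N1, hN1⟩ := Vz_inv_small E
  obtain ⟨x1, hx1⟩ := ev_L' (max (max ((2 : ℝ) ^ B0) (2 * d + 1))
    (max ((2 : ℝ) ^ (d + 1)) ((k : ℝ) * (d * 2 ^ (d + k + 2) + 12 * 4 ^ k))))
  obtain ⟨x2, hx2⟩ := ev_log' (1 + 2 * k + C3 + (U + 2) + C1) 2
  refine ⟨max (max N0 N1) (max x1 (max x2 3)), fun X hX z hz1 hz2 n hn hnC W hW1 hW u hu Y hY => ?_⟩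
  have hXN0 : N0 ≤ X := le_trans (le_trans (le_max_left _ _) (le_max_left _ _)) hX
  have hXN1 : N1 ≤ X := le_trans (le_trans (le_max_right _ _) (le_max_left _ _)) hX
  have hLbig := hx1 X (le_trans (le_trans (le_max_left _ _) (le_max_right _ _)) hX)
  have hsq := hx2 X (le_trans (le_trans (le_trans (le_max_left _ _) (le_max_right _ _))
    (le_max_right _ _)) hX)
  have hX3 : 3 ≤ X := le_trans (le_trans (le_trans (le_max_right _ _) (le_max_right _ _))
    (le_max_right _ _)) hX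
  have hX3r : (3 : ℝ) ≤ X := by exact_mod_cast hX3
  have hX0 : (0 : ℝ) < X := by linarith
  set L : ℝ := Real.log X with hLd
  have hLB : (2 : ℝ) ^ B0 ≤ L := le_trans (le_trans (le_max_left _ _) (le_max_left _ _)) hLbig
  have hLd1 : (2 : ℝ) * d + 1 ≤ L := le_trans (le_trans (le_max_right _ _) (le_max_left _ _)) hLbig
  have hLd2 : (2 : ℝ) ^ (d + 1) ≤ L := le_trans (le_trans (le_max_left _ _) (le_max_right _ _)) hLbig
  have hLc : (k : ℝ) * (d * 2 ^ (d + k + 2) + 12 * 4 ^ k) ≤ L :=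
    le_trans (le_trans (le_max_right _ _) (le_max_right _ _)) hLbig
  have hd1 : (1 : ℝ) ≤ d := by exact_mod_cast hd
  have hL1 : 1 ≤ L := by linarith
  have hL0 : 0 < L := by linarith
  have hsX : √(X : ℝ) ≤ X := by
    rw [Real.sqrt_le_left (by positivity)]; nlinarith
  have hbig : 2 * L ^ (1 + 2 * k + C3 + (U + 2) + C1) ≤ X := hsq.trans hsX
  have hpow : ∀ m : ℕ, m ≤ 1 + 2 * k + C3 + (U + 2) + C1 → 2 * L ^ m ≤ X := by
    intro m hm
    refine le_trans ?_ hbig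
    exact mul_le_mul_of_nonneg_left (pow_le_pow_right₀ hL1 hm) (by norm_num)
  -- the parameter K
  set K : ℕ := ⌈(X : ℝ) * L ^ C1⌉₊ with hKd
  have hXL1 : (X : ℝ) ≤ X * L ^ C1 := le_mul_of_one_le_right hX0.le (one_le_pow₀ hL1)
  have hKle : (X : ℝ) * L ^ C1 ≤ K := Nat.le_ceil _
  have hXK : (X : ℝ) ≤ K := hXL1.trans hKle
  have hXKn : X ≤ K := by exact_mod_cast hXK
  have hK2 : (K : ℝ) ≤ 2 * X * L ^ C1 := by
    have h1 := (Nat.ceil_lt_add_one (show (0 : ℝ) ≤ (X : ℝ) * L ^ C1 by positivity)).le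
    rw [← hKd] at h1
    linarith
  have hKsq : (K : ℝ) ≤ (X : ℝ) ^ 2 := by
    have h1 := hpow C1 (by omega)
    have h2 : 2 * (X : ℝ) * L ^ C1 = X * (2 * L ^ C1) := by ring
    rw [h2] at hK2
    refine hK2.trans ?_
    rw [sq]
    exact mul_le_mul_of_nonneg_left h1 hX0.le
  have hK0 : (0 : ℝ) < K := by linarith
  have hlKle : Real.log K ≤ 2 * L := by
    have h1 := Real.log_le_log hK0 hKsq
    rw [Real.log_pow] at h1
    push_cast at h1
    exact h1
  have hlKge : L ≤ Real.log K := Real.log_le_log hX0 hXK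
  -- z
  have hz1' : Real.log K ^ B0 ≤ z := by
    have h1 : Real.log K ^ B0 ≤ (2 * L) ^ B0 := pow_le_pow_left₀ (by linarith) hlKle _
    have h2 : (2 * L) ^ B0 ≤ L ^ (B0 + 1) := by
      rw [mul_pow, pow_succ, mul_comm (L ^ B0) L]
      exact mul_le_mul_of_nonneg_right hLB (by positivity)
    linarith
  have hz2' : (z : ℝ) ≤ Real.log K ^ E := hz2.trans (pow_le_pow_left₀ hL0.le hlKge _)
  have hz : 1 ≤ z := by
    have h1 : (1 : ℝ) ≤ z := (one_le_pow₀ hL1).trans hz1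
    exact_mod_cast h1
  have hVz : (Vz z)⁻¹ ≤ L := hN1 X hXN1 z hz hz2
  -- bounds for the functions
  have hLam : ∀ m : ℤ, |m| ≤ K → ArithmeticFunction.vonMangoldt m.natAbs ≤ 2 * L := by
    intro m hm
    rcases Nat.eq_zero_or_pos m.natAbs with h0 | h0
    · rw [h0, ArithmeticFunction.map_zero]
      positivity
    · have h1 : (m.natAbs : ℝ) ≤ K := by
        have h2 : m.natAbs ≤ K := by
          have h3 := hm
          rw [Int.abs_eq_natAbs] at h3
          exact_mod_cast h3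
        exact_mod_cast h2
      exact ArithmeticFunction.vonMangoldt_le_log.trans
        ((Real.log_le_log (by exact_mod_cast h0) h1).trans hlKle)
  have hLam0 : ∀ m : ℕ, 0 ≤ ArithmeticFunction.vonMangoldt m :=
    fun m => ArithmeticFunction.vonMangoldt_nonneg
  have hlz : ∀ m : ℕ, lamz z m ≤ 2 * L := fun m => (lamz_le_inv z m).trans (by linarith)
  have hlz0 : ∀ m : ℕ, 0 ≤ lamz z m := fun m => lamz_nonneg z m
  -- the other parameters
  set S : ℕ := ⌊(X : ℝ) / L ^ C3⌋₊ with hSd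
  set N : ℕ := ⌊L ^ C⌋₊ with hNd
  set Ym : ℕ := ⌈(X : ℝ) / L ^ C⌉₊ with hYmd
  have hC3X : 1 ≤ (X : ℝ) / L ^ C3 := by
    rw [one_le_div (by positivity)]
    have := hpow C3 (by omega)
    have h2 : 0 ≤ L ^ C3 := by positivity
    linarith
  have hS2 : (S : ℝ) ≤ X / L ^ C3 := Nat.floor_le (by positivity)
  have hS1 : (X : ℝ) / (2 * L ^ C3) ≤ S := by
    have h1 := Nat.lt_floor_add_one ((X : ℝ) / L ^ C3)
    have h2 : 1 ≤ S := by
      rw [hSd]
      exact Nat.le_floor (by simpa using hC3X)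
    have h3 : (1 : ℝ) ≤ S := by exact_mod_cast h2
    have h4 : (X : ℝ) / (2 * L ^ C3) = (X / L ^ C3) / 2 := by ring
    rw [h4]
    linarith
  have hSpos : 1 ≤ S := by
    rw [hSd]
    exact Nat.le_floor (by simpa using hC3X)
  have hnN : ∀ i, n i ≤ N := fun i => Nat.le_floor (hnC i)
  have hNle : (N : ℝ) + 1 ≤ 2 * L ^ C := by
    have h1 : (N : ℝ) ≤ L ^ C := Nat.floor_le (by positivity)
    have h2 : 1 ≤ L ^ C := one_le_pow₀ hL1
    linarith
  have hYm : ∀ j, Ym ≤ Y j := fun j => Nat.ceil_le.2 (hY j).1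
  have hYmge : (X : ℝ) / L ^ C ≤ Ym := Nat.le_ceil _
  have hSN : 2 * S * (N + 1) ^ d ≤ Ym := by
    have h1 : (2 : ℝ) * S * ((N : ℝ) + 1) ^ d ≤ Ym := by
      have a1 : ((N : ℝ) + 1) ^ d ≤ (2 * L ^ C) ^ d := pow_le_pow_left₀ (by positivity) hNle d
      have a2 : (2 : ℝ) * S * ((N : ℝ) + 1) ^ d ≤ 2 * (X / L ^ C3) * (2 * L ^ C) ^ d :=
        mul_le_mul (by linarith) a1 (by positivity) (by positivity)
      refine a2.trans (le_trans ?_ hYmge)
      rw [mul_pow, ← pow_mul]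
      have a3 : 2 * (X / L ^ C3) * (2 ^ d * L ^ (C * d)) = X * (2 ^ (d + 1) * L ^ (C * d)) / L ^ C3 := by
        rw [pow_succ]
        ring
      rw [a3, div_le_div_iff₀ (by positivity) (by positivity)]
      have a4 : 2 ^ (d + 1) * L ^ (C * d) * L ^ C ≤ L ^ C3 := by
        have a5 : L ^ C3 = L * L ^ (C * d) * L ^ C * L ^ (k + U + 1) := by
          rw [hC3, show C * d + C + k + U + 2 = 1 + C * d + C + (k + U + 1) by ring, pow_add,
            pow_add, pow_add, pow_one]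
        rw [a5]
        have a6 : 2 ^ (d + 1) * L ^ (C * d) * L ^ C ≤ L * L ^ (C * d) * L ^ C := by
          gcongr
        refine a6.trans (le_mul_of_one_le_right (by positivity) (one_le_pow₀ hL1))
      calc X * (2 ^ (d + 1) * L ^ (C * d)) * L ^ C = X * (2 ^ (d + 1) * L ^ (C * d) * L ^ C) := by ring
        _ ≤ X * L ^ C3 := mul_le_mul_of_nonneg_left a4 hX0.le
    exact_mod_cast h1
  have hval : ∀ t : Fin d → ℤ, (∀ j, |t j| ≤ 2 * (Y j : ℤ)) → ∀ i, |u i + ev W t (n i)| ≤ K := by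
    intro t ht i
    have h1 : ∀ j, |(t j : ℝ)| ≤ 2 * X := by
      intro j
      have h2 : |(t j : ℝ)| ≤ 2 * (Y j : ℝ) := by exact_mod_cast ht j
      have h3 := (hY j).2
      linarith
    have h2 := ev_abs W t (n i) (2 * X) (L ^ C) (by positivity) (one_le_pow₀ hL1) (hnC i) h1
    have h3 : (W : ℝ) * (d * (2 * X * (L ^ C) ^ d)) ≤ L * (d * (2 * X * (L ^ C) ^ d)) :=
      mul_le_mul_of_nonneg_right hW (by positivity)
    have h4 := hu i
    have h5 : |((u i + ev W t (n i) : ℤ) : ℝ)| ≤ X * L ^ C + L * (d * (2 * X * (L ^ C) ^ d)) := by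
      push_cast
      refine (abs_add_le _ _).trans ?_
      linarith
    have h6 : X * L ^ C + L * (d * (2 * X * (L ^ C) ^ d)) ≤ X * L ^ C1 := by
      rw [← pow_mul]
      have g1 : L ^ C ≤ L ^ (C * d + C + 2) := pow_le_pow_right₀ hL1 (by omega)
      have g2 : L ^ (C * d + 1) ≤ L ^ (C * d + C + 2) := pow_le_pow_right₀ hL1 (by omega)
      have g3 : L ^ C1 = L * L ^ (C * d + C + 2) := by
        rw [hC1, show C * d + C + 3 = 1 + (C * d + C + 2) by ring, pow_add, pow_one]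
      have g4 : L * (d * (2 * X * L ^ (C * d))) = X * (2 * d * L ^ (C * d + 1)) := by
        rw [pow_succ]; ring
      rw [g3, g4, ← mul_add]
      apply mul_le_mul_of_nonneg_left _ hX0.le
      have g5 : 2 * (d : ℝ) * L ^ (C * d + 1) ≤ 2 * d * L ^ (C * d + C + 2) := by gcongr
      have g6 : (2 * (d : ℝ) + 1) * L ^ (C * d + C + 2) ≤ L * L ^ (C * d + C + 2) := by gcongr
      linarith
    have h7 : |((u i + ev W t (n i) : ℤ) : ℝ)| ≤ K := h5.trans (h6.trans hKle)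
    exact_mod_cast h7
  -- the functions
  set φ : Fin k → Fin k → ℤ → ℝ := fun i0 i m => if i < i0 then lamz z m.natAbs else
    if i = i0 then ArithmeticFunction.vonMangoldt m.natAbs - lamz z m.natAbs else
      ArithmeticFunction.vonMangoldt m.natAbs with hφ
  have hφle : ∀ i0 i, ∀ m : ℤ, |m| ≤ K → |φ i0 i m| ≤ 2 * L := by
    intro i0 i m hm
    have h1 := hLam m hm
    have h2 := hLam0 m.natAbs
    have h3 := hlz m.natAbs
    have h4 := hlz0 m.natAbs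
    simp only [hφ]
    rw [abs_le]
    split_ifs <;> constructor <;> linarith
  set B' : ℝ := 2 * ((K : ℝ) / Real.log K ^ (C1 + 2 * k + C3 + (U + 2))) + 2 * L with hB'
  have hexp : ∀ i0 : Fin k, ∀ θ : ℝ,
      ‖∑ m ∈ Icc (-(K : ℤ)) K, ((φ i0 i0 m : ℝ) : ℂ) * ee ((m : ℝ) * θ)‖ ≤ B' := by
    intro i0 θ
    have h1 := sym_sum K (fun m => ArithmeticFunction.vonMangoldt m - lamz z m)
      ((K : ℝ) / Real.log K ^ (C1 + 2 * k + C3 + (U + 2))) (2 * L)
      (fun α => hN0 K (hXN0.trans hXKn) z hz1' hz2' α) (by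
        have h2 := hlz 0
        have h3 := hlz0 0
        rw [ArithmeticFunction.map_zero, abs_le]
        constructor <;> linarith) θ
    have h2 : ∀ m : ℤ, φ i0 i0 m = ArithmeticFunction.vonMangoldt m.natAbs - lamz z m.natAbs := by
      intro m
      simp only [hφ]
      rw [if_neg (lt_irrefl _)]
      simp
    simp only [h2]
    exact h1
  have hterm : ∀ i0 : Fin k, |∑ t ∈ box Y, ∏ i, φ i0 i (u i + ev W t (n i))| ≤
      (∏ j, (Y j : ℝ)) * (B' * (2 * L) ^ (2 * k) / S +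
        2 * d * (2 * S * ((N : ℝ) + 1) ^ d / Ym) * (2 * L) ^ k) := by
    intro i0
    exact hTERM d k hd hk n hn N hnN u W hW1 Y K Ym hYm hval (φ i0) (2 * L) (by linarith)
      (fun i m hm => hφle i0 i m hm) i0 B' (hexp i0) S hSpos hSN
  have hsum : ∑ t ∈ box Y, (∏ i, ArithmeticFunction.vonMangoldt (u i + ev W t (n i)).natAbs -
        ∏ i, lamz z (u i + ev W t (n i)).natAbs) =
      ∑ i0 : Fin k, ∑ t ∈ box Y, ∏ i, φ i0 i (u i + ev W t (n i)) := by
    rw [sum_comm]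
    refine sum_congr rfl fun t _ => ?_
    rw [telesc]
  rw [hsum]
  refine (abs_sum_le_sum_abs _ _).trans ((sum_le_sum fun i0 _ => hterm i0).trans ?_)
  rw [sum_const, card_univ, Fintype.card_fin, nsmul_eq_mul]
  have hnum := numeric d k C U L X K S N Ym hL1 hX0 hLc (by
      have h1 := hpow (1 + 2 * k + C3 + (U + 2)) (by omega)
      have h2 : 0 ≤ L ^ (1 + 2 * k + C3 + (U + 2)) := by positivity
      linarith) hK2 hS1 hS2 (Nat.cast_nonneg _) hNle hYmge (Real.log K) hlKge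
  have hP : 0 ≤ ∏ j, (Y j : ℝ) := prod_nonneg fun j _ => Nat.cast_nonneg _
  calc (k : ℝ) * ((∏ j, (Y j : ℝ)) * (B' * (2 * L) ^ (2 * k) / S +
        2 * d * (2 * S * ((N : ℝ) + 1) ^ d / Ym) * (2 * L) ^ k)) =
      (∏ j, (Y j : ℝ)) * ((k : ℝ) * (B' * (2 * L) ^ (2 * k) / S +
        2 * d * (2 * S * ((N : ℝ) + 1) ^ d / Ym) * (2 * L) ^ k)) := by ring
    _ ≤ (∏ j, (Y j : ℝ)) * (1 / L ^ U) := mul_le_mul_of_nonneg_left hnum hP
    _ = (∏ j, (Y j : ℝ)) / L ^ U := by ring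

end Pool.Agent.Run7.h871.PO
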