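import Pool.Agent.Run7.h385.PO.Stm

set_option autoImplicit false

/-! Piece POIS of project PO: Bonferroni, from factorial moments to Poisson probabilities. -/

namespace Pool.Agent.Run7.h871.PO

open Finset

theorem alt_choose (n : ℕ) : ∀ m : ℕ,
    ∑ i ∈ range (m + 1), (-1 : ℝ) ^ i * ((n + 1).choose i : ℝ) = (-1) ^ m * (n.choose m : ℝ) := by
  intro m
  induction m with
  | zero => simp
  | succ m ih =>
    rw [sum_range_succ, ih, Nat.choose_succ_succ]
    push_cast
    ring

theorem sgn_choose (n m : ℕ) :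
    0 ≤ (-1 : ℝ) ^ m * ((if n = 0 then 1 else 0) - ∑ i ∈ range m, (-1 : ℝ) ^ i * (n.choose i : ℝ)) := by
  rcases n with _ | n
  · rcases m with _ | m
    · simp
    · have h : ∑ i ∈ range (m + 1), (-1 : ℝ) ^ i * ((0 : ℕ).choose i : ℝ) = 1 := by
        rw [sum_range_succ']
        simp
      rw [h]
      simp
  · rcases m with _ | m
    · simp
    · rw [alt_choose]
      have h2 : (-1 : ℝ) ^ (m + 1) * ((if n + 1 = 0 then (1:ℝ) else 0) - (-1) ^ m * (n.choose m : ℝ)) =
          ((-1 : ℝ) ^ m * (-1) ^ m) * (n.choose m : ℝ) := by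
        rw [if_neg (by omega)]
        ring
      rw [h2, ← mul_pow]
      simp

/-- the truncated sums -/
noncomputable def TT (j m S : ℕ) : ℝ :=
  ∑ i ∈ range m, (-1 : ℝ) ^ i * ((S.descFactorial (j + i) : ℝ) / (j.factorial * i.factorial))

theorem desc_eq (j n i : ℕ) :
    (((j + n).descFactorial (j + i) : ℕ) : ℝ) / (j.factorial * i.factorial) =
      ((j + n).choose j : ℝ) * (n.choose i : ℝ) := by
  rw [div_eq_iff (by positivity)]
  have h0 := Nat.descFactorial_mul_descFactorial (k := j) (m := j + i) (n := j + n) (by omega)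
  have e1 : j + n - j = n := by omega
  have e2 : j + i - j = i := by omega
  rw [e1, e2] at h0
  rw [← h0, Nat.descFactorial_eq_factorial_mul_choose, Nat.descFactorial_eq_factorial_mul_choose]
  push_cast
  ring

theorem sgn_TT (j m S : ℕ) :
    0 ≤ (-1 : ℝ) ^ m * ((if S = j then 1 else 0) - TT j m S) := by
  by_cases hS : S < j
  · have h1 : TT j m S = 0 := by
      unfold TT
      refine sum_eq_zero fun i _ => ?_
      rw [Nat.descFactorial_eq_zero_iff_lt.2 (by omega)]
      simp
    rw [h1, if_neg (by omega)]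
    simp
  · obtain ⟨n, rfl⟩ : ∃ n, S = j + n := ⟨S - j, by omega⟩
    have h1 : TT j m (j + n) = ((j + n).choose j : ℝ) * ∑ i ∈ range m, (-1 : ℝ) ^ i * (n.choose i : ℝ) := by
      unfold TT
      rw [mul_sum]
      refine sum_congr rfl fun i _ => ?_
      rw [desc_eq]
      ring
    have h2 := sgn_choose n m
    have h3 : (if j + n = j then (1 : ℝ) else 0) = ((j + n).choose j : ℝ) * (if n = 0 then 1 else 0) := by
      by_cases hn : n = 0
      · subst hn
        simp
      · rw [if_neg (by omega), if_neg hn]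
        simp
    rw [h1, h3]
    have h4 : (-1 : ℝ) ^ m * (((j + n).choose j : ℝ) * (if n = 0 then 1 else 0) -
        ((j + n).choose j : ℝ) * ∑ i ∈ range m, (-1 : ℝ) ^ i * (n.choose i : ℝ)) =
        ((j + n).choose j : ℝ) * ((-1 : ℝ) ^ m * ((if n = 0 then 1 else 0) -
          ∑ i ∈ range m, (-1 : ℝ) ^ i * (n.choose i : ℝ))) := by ring
    rw [h4]
    positivity

/-- the truncated exponential series -/
noncomputable def PP (m : ℕ) (x : ℝ) : ℝ := ∑ i ∈ range m, (-1 : ℝ) ^ i * (x ^ i / i.factorial)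

theorem hasDeriv_PP (m : ℕ) (x : ℝ) : HasDerivAt (PP (m + 1)) (-(PP m x)) x := by
  induction m with
  | zero =>
    have h : PP (0 + 1) = fun _ => (1 : ℝ) := by
      funext y
      simp [PP]
    rw [h]
    simpa [PP] using hasDerivAt_const x (1 : ℝ)
  | succ m ih =>
    have h1 : PP (m + 1 + 1) = fun y => PP (m + 1) y + (-1 : ℝ) ^ (m + 1) * (y ^ (m + 1) / (m + 1).factorial) := by
      funext y
      unfold PP
      rw [sum_range_succ]
    have h2 : PP (m + 1) x = PP m x + (-1 : ℝ) ^ m * (x ^ m / m.factorial) := by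
      unfold PP
      rw [sum_range_succ]
    rw [h1, h2]
    have h3 : HasDerivAt (fun y : ℝ => (-1 : ℝ) ^ (m + 1) * (y ^ (m + 1) / (m + 1).factorial))
        ((-1 : ℝ) ^ (m + 1) * (((m + 1 : ℕ) : ℝ) * x ^ m / (m + 1).factorial)) x := by
      have h4 := ((hasDerivAt_pow (m + 1) x).div_const ((m + 1).factorial : ℝ)).const_mul ((-1 : ℝ) ^ (m + 1))
      simpa using h4
    refine (ih.add h3).congr_deriv ?_
    have h5 : ((m + 1).factorial : ℝ) = ((m + 1 : ℕ) : ℝ) * (m.factorial : ℝ) := by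
      rw [Nat.factorial_succ]
      push_cast
      ring
    have h6 : ((m + 1 : ℕ) : ℝ) ≠ 0 := by positivity
    rw [h5, mul_div_mul_left _ _ h6]
    ring

theorem sgn_exp (m : ℕ) : ∀ x : ℝ, 0 ≤ x → 0 ≤ (-1 : ℝ) ^ m * (Real.exp (-x) - PP m x) := by
  induction m with
  | zero =>
    intro x _
    simp [PP, Real.exp_nonneg]
  | succ m ih =>
    intro x hx
    set f : ℝ → ℝ := fun y => (-1 : ℝ) ^ (m + 1) * (Real.exp (-y) - PP (m + 1) y) with hf
    have hd : ∀ y, HasDerivAt f ((-1 : ℝ) ^ m * (Real.exp (-y) - PP m y)) y := by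
      intro y
      have h1 : HasDerivAt (fun y : ℝ => Real.exp (-y)) (-Real.exp (-y)) y := by
        have := (hasDerivAt_neg y).exp
        simpa using this
      have h2 := ((h1.sub (hasDeriv_PP m y)).const_mul ((-1 : ℝ) ^ (m + 1)))
      refine h2.congr_deriv ?_
      ring
    have hmono : MonotoneOn f (Set.Ici 0) := by
      apply monotoneOn_of_deriv_nonneg (convex_Ici 0)
      · exact fun y _ => (hd y).continuousAt.continuousWithinAt
      · exact fun y _ => (hd y).differentiableAt.differentiableWithinAt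
      · intro y hy
        rw [interior_Ici] at hy
        rw [(hd y).deriv]
        exact ih y (le_of_lt hy)
    have h0 : f 0 = 0 := by
      simp only [hf]
      have : PP (m + 1) 0 = 1 := by
        unfold PP
        rw [sum_range_succ']
        simp
      rw [this]
      simp
    have h1 := hmono (Set.mem_Ici.2 le_rfl) (Set.mem_Ici.2 hx) hx
    rw [h0] at h1
    exact h1

theorem inv_fact_sum (m : ℕ) : ∑ i ∈ range m, 1 / (i.factorial : ℝ) ≤ 3 := by
  have h := Real.sum_le_exp_of_nonneg (zero_le_one) m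
  have h2 : ∑ i ∈ range m, 1 / (i.factorial : ℝ) = ∑ i ∈ range m, (1 : ℝ) ^ i / (i.factorial : ℝ) := by
    simp
  rw [h2]
  exact h.trans (by have := Real.exp_one_lt_d9; linarith)

theorem moment_TT {ι : Type} (s : Finset ι) (S : ι → ℕ) (K : ℕ) (lam ε : ℝ) (hε : 0 ≤ ε)
    (h : ∀ k ≤ K, |∑ i ∈ s, (((S i).descFactorial k : ℕ) : ℝ) - lam ^ k * s.card| ≤ ε * s.card)
    (j m : ℕ) (hjm : j + m ≤ K + 1) :
    |∑ i ∈ s, TT j m (S i) - lam ^ j / j.factorial * PP m lam * s.card| ≤ 3 * ε * s.card := by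
  have h1 : ∑ i ∈ s, TT j m (S i) = ∑ r ∈ range m, (-1 : ℝ) ^ r *
      ((∑ i ∈ s, (((S i).descFactorial (j + r) : ℕ) : ℝ)) / (j.factorial * r.factorial)) := by
    unfold TT
    rw [sum_comm]
    refine sum_congr rfl fun r _ => ?_
    rw [← mul_sum, sum_div]
  have h2 : lam ^ j / j.factorial * PP m lam * s.card = ∑ r ∈ range m, (-1 : ℝ) ^ r *
      ((lam ^ (j + r) * s.card) / (j.factorial * r.factorial)) := by
    unfold PP
    rw [mul_sum, sum_mul]
    refine sum_congr rfl fun r _ => ?_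
    rw [pow_add]
    have h3 : (j.factorial : ℝ) ≠ 0 := by positivity
    have h4 : (r.factorial : ℝ) ≠ 0 := by positivity
    field_simp
  rw [h1, h2, ← sum_sub_distrib]
  refine (abs_sum_le_sum_abs _ _).trans ?_
  have h5 : ∀ r ∈ range m, |(-1 : ℝ) ^ r *
      ((∑ i ∈ s, (((S i).descFactorial (j + r) : ℕ) : ℝ)) / (j.factorial * r.factorial)) -
      (-1 : ℝ) ^ r * ((lam ^ (j + r) * s.card) / (j.factorial * r.factorial))| ≤
      ε * s.card * (1 / (r.factorial : ℝ)) := by
    intro r hr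
    rw [mem_range] at hr
    have h6 := h (j + r) (by omega)
    have e1 : (-1 : ℝ) ^ r *
      ((∑ i ∈ s, (((S i).descFactorial (j + r) : ℕ) : ℝ)) / (j.factorial * r.factorial)) -
      (-1 : ℝ) ^ r * ((lam ^ (j + r) * s.card) / (j.factorial * r.factorial)) =
      (-1 : ℝ) ^ r * ((∑ i ∈ s, (((S i).descFactorial (j + r) : ℕ) : ℝ) - lam ^ (j + r) * s.card) /
        (j.factorial * r.factorial)) := by ring
    rw [e1, abs_mul, abs_pow, abs_neg, abs_one, one_pow, one_mul, abs_div]
    have h7 : |(j.factorial : ℝ) * r.factorial| = (j.factorial : ℝ) * r.factorial := abs_of_nonneg (by positivity)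
    rw [h7, div_le_iff₀ (by positivity)]
    refine h6.trans ?_
    have h8 : (1 : ℝ) ≤ j.factorial := by exact_mod_cast Nat.one_le_iff_ne_zero.2 (Nat.factorial_ne_zero j)
    have h9 : ε * s.card * (1 / (r.factorial : ℝ)) * (j.factorial * r.factorial) =
        ε * s.card * j.factorial := by
      have : (r.factorial : ℝ) ≠ 0 := by positivity
      field_simp
    rw [h9]
    have h10 : 0 ≤ ε * s.card := by positivity
    nlinarith
  refine (sum_le_sum h5).trans ?_
  rw [← mul_sum]
  have h11 := inv_fact_sum m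
  have h10 : 0 ≤ ε * s.card := by positivity
  nlinarith

theorem main (ι : Type) (s : Finset ι) (S : ι → ℕ) (K : ℕ) (lam ε : ℝ) (hl : 0 ≤ lam) (hε : 0 ≤ ε)
    (h : ∀ k ≤ K, |∑ i ∈ s, (((S i).descFactorial k : ℕ) : ℝ) - lam ^ k * s.card| ≤ ε * s.card)
    (j : ℕ) (hj : j ≤ K) :
    |((s.filter (fun i => S i = j)).card : ℝ) - Real.exp (-lam) * lam ^ j / j.factorial * s.card| ≤
      (lam ^ K / (j.factorial * (K - j).factorial) + 3 * ε) * s.card := by
  obtain ⟨M, rfl⟩ : ∃ M, K = j + M := ⟨K - j, by omega⟩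
  have e0 : j + M - j = M := by omega
  rw [e0]
  set N : ℝ := ((s.filter (fun i => S i = j)).card : ℝ) with hN
  have hN2 : N = ∑ i ∈ s, (if S i = j then (1 : ℝ) else 0) := by
    rw [hN, card_filter]
    push_cast
    rfl
  have hsg : ∀ m : ℕ, 0 ≤ (-1 : ℝ) ^ m * (N - ∑ i ∈ s, TT j m (S i)) := by
    intro m
    rw [hN2, ← sum_sub_distrib, mul_sum]
    exact sum_nonneg fun i _ => sgn_TT j m (S i)
  have hc : (0 : ℝ) ≤ s.card := by positivity
  set c : ℝ := lam ^ j / j.factorial with hcd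
  have hc0 : 0 ≤ c := by positivity
  have hE : Real.exp (-lam) * lam ^ j / j.factorial = c * Real.exp (-lam) := by
    rw [hcd]; ring
  rw [hE]
  have ha := moment_TT s S (j + M) lam ε hε h j M (by omega)
  have hb := moment_TT s S (j + M) lam ε hε h j (M + 1) (by omega)
  have g1 := hsg M
  have g2 := hsg (M + 1)
  have x1 := sgn_exp M lam hl
  have x2 := sgn_exp (M + 1) lam hl
  have hP : PP (M + 1) lam = PP M lam + (-1 : ℝ) ^ M * (lam ^ M / M.factorial) := by
    unfold PP
    rw [sum_range_succ]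
  have hd : lam ^ (j + M) / (j.factorial * M.factorial) = c * (lam ^ M / M.factorial) := by
    rw [hcd, pow_add]
    have h3 : (j.factorial : ℝ) ≠ 0 := by positivity
    have h4 : (M.factorial : ℝ) ≠ 0 := by positivity
    field_simp
  rw [hd]
  rw [← hcd] at ha hb
  set q : ℝ := lam ^ M / M.factorial with hq
  set A : ℝ := ∑ i ∈ s, TT j M (S i)
  set B : ℝ := ∑ i ∈ s, TT j (M + 1) (S i)
  set n : ℝ := (s.card : ℝ)
  have ha' := abs_le.1 ha
  have hb' := abs_le.1 hb
  rcases Nat.even_or_odd M with hM | hM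
  · rw [hM.neg_one_pow] at g1 x1 hP
    rw [(Even.add_one hM).neg_one_pow] at g2 x2
    have y1 : 0 ≤ c * (Real.exp (-lam) - PP M lam) * n :=
      mul_nonneg (mul_nonneg hc0 (by linarith)) hc
    have y2 : 0 ≤ c * (PP (M + 1) lam - Real.exp (-lam)) * n :=
      mul_nonneg (mul_nonneg hc0 (by linarith)) hc
    rw [hP] at y2 hb'
    rw [abs_le]
    constructor <;> nlinarith
  · rw [hM.neg_one_pow] at g1 x1 hP
    rw [(Odd.add_one hM).neg_one_pow] at g2 x2
    have y1 : 0 ≤ c * (PP M lam - Real.exp (-lam)) * n :=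
      mul_nonneg (mul_nonneg hc0 (by linarith)) hc
    have y2 : 0 ≤ c * (Real.exp (-lam) - PP (M + 1) lam) * n :=
      mul_nonneg (mul_nonneg hc0 (by linarith)) hc
    rw [hP] at y2 hb'
    rw [abs_le]
    constructor <;> nlinarith

theorem t_POIS : Pool.Agent.Run7.h385.PO.S_POIS :=
  fun ι s S K lam ε hl hε h j hj => main ι s S K lam ε hl hε h j hj

end Pool.Agent.Run7.h871.PO
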